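import Pool.Agent.N272.Bes.Twin
import Pool.Agent.N272.Cor.Vc

set_option autoImplicit false
set_option linter.unusedSectionVars false

/-!
# The Brown-Erdos-Sos problem for hypergraphs of bounded VC dimension
-/

open Finset

namespace Pool.Agent.N272.Bes

variable {V : Type} [Fintype V] [DecidableEq V]

theorem rowVC (H : Finset (Finset V)) (S : Finset V) (d : ℕ)
    (h : (S.image (nbr H)).vcDim ≤ d) :
    Pool.Agent.H238R2.LR.RowVC (fun x y => decide (y ∈ nbr H x)) S univ d := by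
  intro T _ hT
  refine le_trans ?_ h
  apply Finset.Shatters.card_le_vcDim
  intro T' hT'
  obtain ⟨x, hxS, hx⟩ := hT T' hT'
  refine ⟨nbr H x, mem_image_of_mem _ hxS, ?_⟩
  ext y
  simp only [mem_inter]
  constructor
  · rintro ⟨h1, h2⟩
    exact (hx y h1).1 (by simpa using h2)
  · intro h1
    exact ⟨hT' h1, by simpa using (hx y (hT' h1)).2 h1⟩

/-- Codegrees are small. -/
theorem codeg {H : Finset (Finset V)} {r e : ℕ} (hr : 3 ≤ r) (hH : ∀ f ∈ H, f.card = r)
    (hfree : ∀ F ⊆ H, F.card = e → (r - 2) * e + 3 < (F.biUnion id).card) {x y : V}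
    (hxy : y ≠ x) : (H.filter fun f => x ∈ f ∧ y ∈ f).card ≤ e := by
  by_contra hcon
  push Not at hcon
  obtain ⟨F, hF, hFc⟩ := exists_subset_card_eq hcon.le
  have h1 := hfree F (hF.trans (filter_subset _ _)) hFc
  have h2 : F.biUnion id ⊆ {x, y} ∪ F.biUnion (fun f => f \ {x, y}) := by
    intro v hv
    rw [mem_biUnion] at hv
    obtain ⟨f, hf, hvf⟩ := hv
    rw [mem_union]
    by_cases h : v ∈ ({x, y} : Finset V)
    · exact Or.inl h
    · exact Or.inr (mem_biUnion.2 ⟨f, hf, mem_sdiff.2 ⟨hvf, h⟩⟩)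
  have h3 : (F.biUnion (fun f => f \ {x, y})).card ≤ (r - 2) * e := by
    refine card_biUnion_le.trans (le_of_eq ?_)
    calc ∑ f ∈ F, (f \ {x, y}).card = ∑ f ∈ F, (r - 2) := by
          refine sum_congr rfl fun f hf => ?_
          obtain ⟨hfH, hxf, hyf⟩ := mem_filter.1 (hF hf)
          rw [card_sdiff_of_subset (by
            intro w hw
            simp only [mem_insert, mem_singleton] at hw
            rcases hw with rfl | rfl
            · exact hxf
            · exact hyf), hH f hfH, card_pair hxy.symm]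
      _ = (r - 2) * e := by rw [sum_const, smul_eq_mul, hFc, mul_comm]
  have h4 := (card_le_card h2).trans (card_union_le _ _)
  have h5 := card_le_two (a := x) (b := y)
  omega

/-- Degrees. -/
theorem deg_le {H : Finset (Finset V)} {r e : ℕ} (hr : 3 ≤ r) (hH : ∀ f ∈ H, f.card = r)
    (hfree : ∀ F ⊆ H, F.card = e → (r - 2) * e + 3 < (F.biUnion id).card) (x : V) :
    (H.filter fun f => x ∈ f).card ≤ (nbr H x).card * e := by
  have h1 : (H.filter fun f => x ∈ f) ⊆
      (nbr H x).biUnion fun y => H.filter fun f => x ∈ f ∧ y ∈ f := by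
    intro f hf
    rw [mem_filter] at hf
    have h2 : 1 < f.card := by rw [hH f hf.1]; omega
    obtain ⟨y, hy, hyx⟩ := exists_mem_ne h2 x
    exact mem_biUnion.2 ⟨y, mem_nbr.2 ⟨hyx, f, hf.1, hf.2, hy⟩, mem_filter.2 ⟨hf.1, hf.2, hy⟩⟩
  refine (card_le_card h1).trans (card_biUnion_le.trans ?_)
  calc ∑ y ∈ nbr H x, (H.filter fun f => x ∈ f ∧ y ∈ f).card ≤ ∑ y ∈ nbr H x, e :=
        sum_le_sum fun y hy => codeg hr hH hfree (mem_nbr.1 hy).1
    _ = _ := by rw [sum_const, smul_eq_mul]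

/-- **Main theorem.** -/
theorem main (d : ℕ) : ∃ C : ℝ, 0 < C ∧ ∀ (V : Type) [Fintype V] [DecidableEq V] (r e : ℕ)
    (H : Finset (Finset V)) (S : Finset V), 3 ≤ r → 1 ≤ e → (∀ f ∈ H, f.card = r) →
    (∀ f ∈ H, ∃ x ∈ S, x ∈ f) → (S.image (nbr H)).vcDim ≤ d →
    (∀ F ⊆ H, F.card = e → (r - 2) * e + 3 < (F.biUnion id).card) →
    (H.card : ℝ) ≤ C * r * e ^ 2 * (Fintype.card V : ℝ) ^ (2 - 1 / (2 * d + 1 : ℝ)) := by
  obtain ⟨K, hK, hnum⟩ := N272.Cor.numbers d
  refine ⟨K * 4 ^ d + 2, by positivity, fun V _ _ r e H S hr he hH hS hvc hfree => ?_⟩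
  rcases H.eq_empty_or_nonempty with rfl | hne
  · simp only [card_empty, Nat.cast_zero]
    positivity
  -- the number of vertices is positive
  have hn : 0 < Fintype.card V := by
    obtain ⟨f, hf⟩ := hne
    have h1 := hH f hf
    have h2 : 0 < f.card := by omega
    obtain ⟨v, _⟩ := card_pos.1 h2
    exact Fintype.card_pos_iff.2 ⟨v⟩
  haveI : Nonempty V := Fintype.card_pos_iff.1 hn
  set N : ℝ := (Fintype.card V : ℝ) with hN
  have hN1 : 1 ≤ N := by rw [hN]; exact_mod_cast hn
  have hN0 : 0 < N := by linarith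
  set q : ℝ := N ^ (1 / (2 * d + 1 : ℝ)) with hq
  have hd0 : (0 : ℝ) < 2 * d + 1 := by positivity
  have hq1 : 1 ≤ q := Real.one_le_rpow hN1 (by positivity)
  have hq0 : 0 < q := by linarith
  have hqN : q ^ (2 * d + 1) = N := by
    rw [hq, ← Real.rpow_natCast, ← Real.rpow_mul hN0.le]
    push_cast
    rw [one_div_mul_cancel hd0.ne', Real.rpow_one]
  have hq2 : N ^ (2 - 1 / (2 * d + 1 : ℝ)) = q ^ (2 * d) * N := by
    have e1 : (2 : ℝ) - 1 / (2 * d + 1 : ℝ) = 1 / (2 * d + 1 : ℝ) * (2 * d : ℕ) + 1 := by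
      push_cast
      field_simp
      ring
    rw [e1, Real.rpow_add hN0, Real.rpow_mul hN0.le, Real.rpow_natCast, Real.rpow_one]
  -- large vertices
  set t : ℝ := 2 * r * e * q ^ (2 * d) with ht
  classical
  set P : Finset V := S.filter fun x => t ≤ ((nbr H x).card : ℝ) with hP
  set E : ℕ := ⌊q⌋₊ + 1 with hE
  have hE1 : q < (E : ℝ) := by rw [hE]; push_cast; exact Nat.lt_floor_add_one q
  have hE2 : 2 ≤ E := by
    have : 1 ≤ ⌊q⌋₊ := Nat.one_le_floor_iff _ |>.2 hq1
    omega
  have hE3 : (E : ℝ) ≤ 2 * q := by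
    rw [hE]
    push_cast
    have := Nat.floor_le hq0.le
    linarith
  obtain ⟨a, ha1, ha2⟩ := hnum E hE2
  have hq2d : 1 ≤ q ^ (2 * d) := one_le_pow₀ hq1
  have hr' : (3 : ℝ) ≤ r := by exact_mod_cast hr
  have he' : (1 : ℝ) ≤ e := by exact_mod_cast he
  have hPc : P.card < 2 ^ a := by
    refine Pool.Agent.H238R2.LR.pack (fun x y => decide (y ∈ nbr H x)) S P univ d E a
      univ_nonempty hE2 (filter_subset _ _) ?_ (rowVC H S d hvc) ha1
    intro x hx x' _ hxx
    rw [hP, mem_filter] at hx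
    have h1 := twin hr hH hxx he hfree
    have h2 : ((univ : Finset V).filter fun y => decide (y ∈ nbr H x) ≠ decide (y ∈ nbr H x')) =
        symmDiff (nbr H x) (nbr H x') := by
      ext y
      simp only [mem_filter, mem_univ, true_and, mem_symmDiff, ne_eq, decide_eq_decide]
      tauto
    rw [h2]
    set D := symmDiff (nbr H x) (nbr H x') with hD
    have h3 : ((nbr H x).card : ℝ) ≤ r * e * (D.card + 1) := by
      have h4 : (nbr H x).card ≤ r * e * (D.card + 1) := by
        refine h1.trans ?_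
        gcongr
        omega
      exact_mod_cast h4
    have h5 : 2 * r * e * q ^ (2 * d) ≤ r * e * (D.card + 1) := by
      rw [← ht]
      exact hx.2.trans h3
    have h6 : 2 * q ^ (2 * d) ≤ D.card + 1 := by
      have h7 : (0 : ℝ) < r * e := by positivity
      have h8 : r * e * (2 * q ^ (2 * d)) ≤ r * e * (D.card + 1 : ℝ) := by linarith
      exact le_of_mul_le_mul_left h8 h7
    have h9 : q ^ (2 * d) ≤ D.card := by linarith
    have h10 : N < E * D.card := by
      calc N = q * q ^ (2 * d) := by rw [← hqN]; ring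
        _ ≤ q * D.card := mul_le_mul_of_nonneg_left h9 hq0.le
        _ < E * D.card := by
            apply mul_lt_mul_of_pos_right hE1
            linarith
    rw [card_univ]
    have h11 : ((Fintype.card V : ℕ) : ℝ) < ((E * D.card : ℕ) : ℝ) := by
      push_cast
      exact h10
    exact_mod_cast h11
  have hPr : (P.card : ℝ) ≤ K * 4 ^ d * q ^ (2 * d) := by
    have h1 : P.card ≤ K * E ^ (2 * d) := hPc.le.trans ha2
    have h2 : (P.card : ℝ) ≤ K * (E : ℝ) ^ (2 * d) := by exact_mod_cast h1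
    refine h2.trans ?_
    calc (K : ℝ) * (E : ℝ) ^ (2 * d) ≤ K * (2 * q) ^ (2 * d) := by gcongr
      _ = K * 4 ^ d * q ^ (2 * d) := by
          rw [mul_pow, pow_mul (2 : ℝ) 2 d]
          norm_num
          ring
  -- counting
  have hcount : H.card ≤ ∑ x ∈ S, (H.filter fun f => x ∈ f).card := by
    have h1 : H ⊆ S.biUnion fun x => H.filter fun f => x ∈ f := by
      intro f hf
      obtain ⟨x, hx, hxf⟩ := hS f hf
      exact mem_biUnion.2 ⟨x, hx, mem_filter.2 ⟨hf, hxf⟩⟩
    exact (card_le_card h1).trans card_biUnion_le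
  have hcount2 : (H.card : ℝ) ≤ ∑ x ∈ S, ((nbr H x).card : ℝ) * e := by
    have h1 : H.card ≤ ∑ x ∈ S, (nbr H x).card * e :=
      hcount.trans (sum_le_sum fun x _ => deg_le hr hH hfree x)
    exact_mod_cast h1
  have hsplit : ∑ x ∈ S, ((nbr H x).card : ℝ) * e ≤ P.card * (N * e) + N * (t * e) := by
    rw [← sum_filter_add_sum_filter_not S (fun x => t ≤ ((nbr H x).card : ℝ))]
    have hnb : ∀ x, ((nbr H x).card : ℝ) ≤ N := fun x => by
      rw [hN]; exact_mod_cast card_le_univ _
    have h1 : ∑ x ∈ S.filter (fun x => t ≤ ((nbr H x).card : ℝ)), ((nbr H x).card : ℝ) * e ≤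
        P.card * (N * e) := by
      calc _ ≤ ∑ x ∈ S.filter (fun x => t ≤ ((nbr H x).card : ℝ)), N * e :=
            sum_le_sum fun x _ => by gcongr; exact hnb x
        _ = P.card * (N * e) := by rw [sum_const, nsmul_eq_mul]
    have h2 : ∑ x ∈ S.filter (fun x => ¬ t ≤ ((nbr H x).card : ℝ)), ((nbr H x).card : ℝ) * e ≤
        N * (t * e) := by
      calc _ ≤ ∑ x ∈ S.filter (fun x => ¬ t ≤ ((nbr H x).card : ℝ)), t * e :=
            sum_le_sum fun x hx => by
              rw [mem_filter, not_le] at hx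
              have := hx.2.le
              gcongr
        _ = (S.filter (fun x => ¬ t ≤ ((nbr H x).card : ℝ))).card * (t * e) := by
            rw [sum_const, nsmul_eq_mul]
        _ ≤ N * (t * e) := by
            have : ((S.filter (fun x => ¬ t ≤ ((nbr H x).card : ℝ))).card : ℝ) ≤ N := by
              rw [hN]; exact_mod_cast card_le_univ _
            have ht0 : 0 ≤ t * e := by positivity
            exact mul_le_mul_of_nonneg_right this ht0
    exact add_le_add h1 h2
  refine (hcount2.trans hsplit).trans ?_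
  rw [hq2]
  have h1 : (P.card : ℝ) * (N * e) ≤ K * 4 ^ d * q ^ (2 * d) * (N * e) := by gcongr
  have h2 : (K : ℝ) * 4 ^ d * q ^ (2 * d) * (N * e) ≤
      (K * 4 ^ d) * r * e ^ 2 * (q ^ (2 * d) * N) := by
    have h3 : (e : ℝ) ≤ r * e ^ 2 := by nlinarith
    calc (K : ℝ) * 4 ^ d * q ^ (2 * d) * (N * e) = (K * 4 ^ d * (q ^ (2 * d) * N)) * e := by ring
      _ ≤ (K * 4 ^ d * (q ^ (2 * d) * N)) * (r * e ^ 2) := by gcongr
      _ = _ := by ring
  have h4 : N * (t * e) = 2 * r * e ^ 2 * (q ^ (2 * d) * N) := by rw [ht]; ring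
  calc (P.card : ℝ) * (N * e) + N * (t * e) ≤ (K * 4 ^ d) * r * e ^ 2 * (q ^ (2 * d) * N) +
        2 * r * e ^ 2 * (q ^ (2 * d) * N) := by rw [h4]; linarith
    _ = (K * 4 ^ d + 2) * r * e ^ 2 * (q ^ (2 * d) * N) := by ring

end Pool.Agent.N272.Bes
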