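import Pool.Agent.N272.Cor.Vc

set_option autoImplicit false
set_option linter.unusedSectionVars false

/-!
# The (7,4)-problem for tripartite triple systems with one shadow of bounded VC dimension
-/

open Finset

namespace Pool.Agent.N272.Bes7

variable {X Y Z : Type} [Fintype X] [Fintype Y] [Fintype Z] [DecidableEq X] [DecidableEq Y]
  [DecidableEq Z]

/-- the neighbourhood of `x` in `Y` -/
def nb (H : Finset (X × Y × Z)) (x : X) : Finset Y :=
  univ.filter fun y => ∃ z, (x, y, z) ∈ H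

/-- the number of vertices of a set of triples -/
def vert (F : Finset (X × Y × Z)) : ℕ :=
  (F.image fun t => t.1).card + (F.image fun t => t.2.1).card + (F.image fun t => t.2.2).card

/-- any four triples span at least eight vertices -/
def Free (H : Finset (X × Y × Z)) : Prop := ∀ F ⊆ H, F.card = 4 → 8 ≤ vert F

theorem mem_nb {H : Finset (X × Y × Z)} {x : X} {y : Y} : y ∈ nb H x ↔ ∃ z, (x, y, z) ∈ H := by
  simp [nb]

theorem card_image_le_one {α β : Type} [DecidableEq β] {F : Finset α} {f : α → β} {b : β}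
    (h : ∀ t ∈ F, f t = b) : (F.image f).card ≤ 1 := by
  refine (card_le_card (t := {b}) ?_).trans (card_singleton b).le
  intro c hc
  obtain ⟨t, ht, rfl⟩ := mem_image.1 hc
  rw [mem_singleton]
  exact h t ht

variable {H : Finset (X × Y × Z)} (hf : Free H)
include hf

theorem co_xy (x : X) (y : Y) : (H.filter fun t => t.1 = x ∧ t.2.1 = y).card ≤ 3 := by
  by_contra hcon
  push Not at hcon
  obtain ⟨F, hF, hFc⟩ := exists_subset_card_eq (Nat.succ_le_of_lt hcon)
  have h1 := hf F (hF.trans (filter_subset _ _)) hFc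
  unfold vert at h1
  have h2 := card_image_le_one (F := F) (f := fun t => t.1) (b := x)
    fun t ht => (mem_filter.1 (hF ht)).2.1
  have h3 := card_image_le_one (F := F) (f := fun t => t.2.1) (b := y)
    fun t ht => (mem_filter.1 (hF ht)).2.2
  have h4 : (F.image fun t => t.2.2).card ≤ F.card := card_image_le
  omega

theorem co_xz (x : X) (z : Z) : (H.filter fun t => t.1 = x ∧ t.2.2 = z).card ≤ 3 := by
  by_contra hcon
  push Not at hcon
  obtain ⟨F, hF, hFc⟩ := exists_subset_card_eq (Nat.succ_le_of_lt hcon)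
  have h1 := hf F (hF.trans (filter_subset _ _)) hFc
  unfold vert at h1
  have h2 := card_image_le_one (F := F) (f := fun t => t.1) (b := x)
    fun t ht => (mem_filter.1 (hF ht)).2.1
  have h3 := card_image_le_one (F := F) (f := fun t => t.2.2) (b := z)
    fun t ht => (mem_filter.1 (hF ht)).2.2
  have h4 : (F.image fun t => t.2.1).card ≤ F.card := card_image_le
  omega

theorem co_yz (y : Y) (z : Z) : (H.filter fun t => t.2.1 = y ∧ t.2.2 = z).card ≤ 3 := by
  by_contra hcon
  push Not at hcon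
  obtain ⟨F, hF, hFc⟩ := exists_subset_card_eq (Nat.succ_le_of_lt hcon)
  have h1 := hf F (hF.trans (filter_subset _ _)) hFc
  unfold vert at h1
  have h2 := card_image_le_one (F := F) (f := fun t => t.2.1) (b := y)
    fun t ht => (mem_filter.1 (hF ht)).2.1
  have h3 := card_image_le_one (F := F) (f := fun t => t.2.2) (b := z)
    fun t ht => (mem_filter.1 (hF ht)).2.2
  have h4 : (F.image fun t => t.1).card ≤ F.card := card_image_le
  omega

/-- No square. -/
theorem no_square {x x' : X} {y y' : Y} {z : Z} (h1 : (x, y, z) ∈ H) (h2 : (x', y', z) ∈ H)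
    (hx : x ≠ x') (hy : y ≠ y') (h3 : y ∈ nb H x') (h4 : y' ∈ nb H x) : False := by
  obtain ⟨w, hw⟩ := mem_nb.1 h3
  obtain ⟨w', hw'⟩ := mem_nb.1 h4
  let F : Finset (X × Y × Z) := {(x, y, z), (x', y', z), (x', y, w), (x, y', w')}
  have hF : F ⊆ H := by
    intro t ht
    simp only [F, mem_insert, mem_singleton] at ht
    rcases ht with rfl | rfl | rfl | rfl
    · exact h1
    · exact h2
    · exact hw
    · exact hw'
  have hFc : F.card = 4 := by
    have e1 : (x, y, z) ∉ ({(x', y', z), (x', y, w), (x, y', w')} : Finset (X × Y × Z)) := by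
      simp only [mem_insert, mem_singleton, Prod.mk.injEq]
      tauto
    have e2 : (x', y', z) ∉ ({(x', y, w), (x, y', w')} : Finset (X × Y × Z)) := by
      simp only [mem_insert, mem_singleton, Prod.mk.injEq]
      rintro (⟨_, h, _⟩ | ⟨h, _⟩)
      · exact hy h.symm
      · exact hx h.symm
    have e3 : (x', y, w) ∉ ({(x, y', w')} : Finset (X × Y × Z)) := by
      simp only [mem_singleton, Prod.mk.injEq]
      rintro ⟨h, _⟩
      exact hx h.symm
    simp only [F]
    rw [card_insert_of_notMem e1, card_insert_of_notMem e2, card_insert_of_notMem e3,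
      card_singleton]
  have h5 := hf F hF hFc
  have e1 : (F.image fun t => t.1).card ≤ 2 := by
    have : F.image (fun t => t.1) ⊆ {x, x'} := by
      intro a ha
      obtain ⟨t, ht, rfl⟩ := mem_image.1 ha
      simp only [F, mem_insert, mem_singleton] at ht
      rcases ht with rfl | rfl | rfl | rfl <;> simp
    exact (card_le_card this).trans card_le_two
  have e2 : (F.image fun t => t.2.1).card ≤ 2 := by
    have : F.image (fun t => t.2.1) ⊆ {y, y'} := by
      intro a ha
      obtain ⟨t, ht, rfl⟩ := mem_image.1 ha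
      simp only [F, mem_insert, mem_singleton] at ht
      rcases ht with rfl | rfl | rfl | rfl <;> simp
    exact (card_le_card this).trans card_le_two
  have e3 : (F.image fun t => t.2.2).card ≤ 3 := by
    have : F.image (fun t => t.2.2) ⊆ {z, w, w'} := by
      intro a ha
      obtain ⟨t, ht, rfl⟩ := mem_image.1 ha
      simp only [F, mem_insert, mem_singleton] at ht
      rcases ht with rfl | rfl | rfl | rfl <;> simp
    exact (card_le_card this).trans card_le_three
  unfold vert at h5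
  omega

/-- One class. -/
theorem class_le (P : Finset X) (D : ℕ)
    (hD : ∀ x ∈ P, ∀ x' ∈ P, (nb H x \ nb H x').card ≤ D) :
    (H.filter fun t => t.1 ∈ P).card ^ 2 ≤ Fintype.card Z *
      (18 * P.card ^ 2 * D + 6 * (H.filter fun t => t.1 ∈ P).card) := by
  classical
  set HP := H.filter fun t => t.1 ∈ P with hHP
  have hHPH : HP ⊆ H := filter_subset _ _
  -- pairs with the same z
  set Q := (HP ×ˢ HP).filter fun p => p.1.2.2 = p.2.2.2 with hQ
  have h1 : HP.card ^ 2 ≤ Fintype.card Z * Q.card := by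
    have e1 : HP.card = ∑ z : Z, (HP.filter fun t => t.2.2 = z).card :=
      card_eq_sum_card_fiberwise (fun t _ => mem_univ _)
    have e2 : Q.card = ∑ z : Z, (HP.filter fun t => t.2.2 = z).card ^ 2 := by
      have e3 : Q.card = ∑ z : Z, (Q.filter fun p => p.1.2.2 = z).card :=
        card_eq_sum_card_fiberwise (fun t _ => mem_univ _)
      rw [e3]
      refine sum_congr rfl fun z _ => ?_
      rw [sq, ← card_product]
      congr 1
      ext ⟨t, t'⟩
      simp only [hQ, mem_filter, mem_product]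
      constructor
      · rintro ⟨⟨⟨a, b⟩, c⟩, rfl⟩
        exact ⟨⟨a, rfl⟩, b, c.symm⟩
      · rintro ⟨⟨a, rfl⟩, b, c⟩
        exact ⟨⟨⟨a, b⟩, c.symm⟩, rfl⟩
    rw [e2]
    have := sq_sum_le_card_mul_sum_sq (s := (univ : Finset Z))
      (f := fun z => (HP.filter fun t => t.2.2 = z).card)
    rw [← e1, card_univ] at this
    exact this
  -- the bad pairs
  set B1 := Q.filter fun p => p.1.2.1 ∉ nb H p.2.1 with hB1
  set B2 := Q.filter fun p => p.2.2.1 ∉ nb H p.1.1 with hB2
  set D1 := Q.filter fun p => p.1.1 = p.2.1 with hD1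
  set D2 := Q.filter fun p => p.1.2.1 = p.2.2.1 with hD2
  have hcov : Q ⊆ (B1 ∪ B2) ∪ (D1 ∪ D2) := by
    rintro ⟨⟨x, y, z⟩, ⟨x', y', z'⟩⟩ hp
    have hp' := hp
    rw [hQ, mem_filter, mem_product] at hp'
    obtain ⟨⟨ha, hb⟩, hz⟩ := hp'
    simp only at hz
    subst hz
    simp only [hB1, hB2, hD1, hD2, mem_union, mem_filter, hp, true_and]
    by_contra hcon
    push Not at hcon
    exact no_square hf (hHPH ha) (hHPH hb) hcon.2.1 hcon.2.2 hcon.1.1 hcon.1.2
  have hbad : B1.card ≤ 9 * (P.card ^ 2 * D) := by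
    have e1 : B1.card ≤ 9 * (B1.image fun p => (p.1.1, p.2.1, p.1.2.1)).card := by
      refine card_le_mul_card_image B1 9 ?_
      rintro ⟨x, x', y⟩ _
      -- fibre
      have e2 : (B1.filter fun p => (p.1.1, p.2.1, p.1.2.1) = (x, x', y)) ⊆
          (H.filter fun t => t.1 = x ∧ t.2.1 = y).biUnion fun t =>
            (H.filter fun t' => t'.1 = x' ∧ t'.2.2 = t.2.2).image fun t' => (t, t') := by
        rintro ⟨t, t'⟩ hp
        rw [mem_filter] at hp
        obtain ⟨hp1, hp2⟩ := hp
        rw [hB1, mem_filter, hQ, mem_filter, mem_product] at hp1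
        simp only [Prod.mk.injEq] at hp2
        refine mem_biUnion.2 ⟨t, mem_filter.2 ⟨hHPH hp1.1.1.1, hp2.1, hp2.2.2⟩, ?_⟩
        exact mem_image.2 ⟨t', mem_filter.2 ⟨hHPH hp1.1.1.2, hp2.2.1, hp1.1.2.symm⟩, rfl⟩
      refine (card_le_card e2).trans (card_biUnion_le.trans ?_)
      calc ∑ t ∈ H.filter (fun t => t.1 = x ∧ t.2.1 = y),
            ((H.filter fun t' => t'.1 = x' ∧ t'.2.2 = t.2.2).image fun t' => (t, t')).card
          ≤ ∑ t ∈ H.filter (fun t => t.1 = x ∧ t.2.1 = y), 3 :=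
            sum_le_sum fun t _ => card_image_le.trans (co_xz hf x' t.2.2)
        _ = (H.filter (fun t => t.1 = x ∧ t.2.1 = y)).card * 3 := by rw [sum_const, smul_eq_mul]
        _ ≤ 3 * 3 := Nat.mul_le_mul_right _ (co_xy hf x y)
        _ = 9 := rfl
    refine e1.trans (Nat.mul_le_mul_left _ ?_)
    have e3 : (B1.image fun p => (p.1.1, p.2.1, p.1.2.1)) ⊆
        (P ×ˢ P).biUnion fun q => (nb H q.1 \ nb H q.2).image fun y => (q.1, q.2, y) := by
      intro q hq
      obtain ⟨⟨t, t'⟩, hp, rfl⟩ := mem_image.1 hq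
      rw [hB1, mem_filter, hQ, mem_filter, mem_product] at hp
      obtain ⟨⟨⟨ha, hb⟩, _⟩, hc⟩ := hp
      refine mem_biUnion.2 ⟨(t.1, t'.1), mem_product.2 ⟨(mem_filter.1 ha).2, (mem_filter.1 hb).2⟩,
        mem_image.2 ⟨t.2.1, mem_sdiff.2 ⟨mem_nb.2 ⟨t.2.2, hHPH ha⟩, hc⟩, rfl⟩⟩
    refine (card_le_card e3).trans (card_biUnion_le.trans ?_)
    calc ∑ q ∈ P ×ˢ P, ((nb H q.1 \ nb H q.2).image fun y => (q.1, q.2, y)).card
        ≤ ∑ q ∈ P ×ˢ P, D := sum_le_sum fun q hq =>
          card_image_le.trans (hD q.1 (mem_product.1 hq).1 q.2 (mem_product.1 hq).2)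
      _ = P.card ^ 2 * D := by rw [sum_const, smul_eq_mul, card_product, sq]
  have hB12 : B2.card = B1.card := by
    refine card_bij (fun p _ => (p.2, p.1)) ?_ ?_ ?_
    · rintro ⟨t, t'⟩ hp
      rw [hB2, mem_filter, hQ, mem_filter, mem_product] at hp
      rw [hB1, mem_filter, hQ, mem_filter, mem_product]
      exact ⟨⟨⟨hp.1.1.2, hp.1.1.1⟩, hp.1.2.symm⟩, hp.2⟩
    · rintro ⟨t, t'⟩ _ ⟨s, s'⟩ _ h
      simp only [Prod.mk.injEq] at h
      exact Prod.ext h.2 h.1
    · rintro ⟨t, t'⟩ hp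
      rw [hB1, mem_filter, hQ, mem_filter, mem_product] at hp
      refine ⟨(t', t), ?_, rfl⟩
      rw [hB2, mem_filter, hQ, mem_filter, mem_product]
      exact ⟨⟨⟨hp.1.1.2, hp.1.1.1⟩, hp.1.2.symm⟩, hp.2⟩
  have hd1 : D1.card ≤ 3 * HP.card := by
    have e1 : D1 ⊆ HP.biUnion fun t =>
        (H.filter fun t' => t'.1 = t.1 ∧ t'.2.2 = t.2.2).image fun t' => (t, t') := by
      rintro ⟨t, t'⟩ hp
      rw [hD1, mem_filter, hQ, mem_filter, mem_product] at hp
      exact mem_biUnion.2 ⟨t, hp.1.1.1, mem_image.2 ⟨t', mem_filter.2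
        ⟨hHPH hp.1.1.2, hp.2.symm, hp.1.2.symm⟩, rfl⟩⟩
    refine (card_le_card e1).trans (card_biUnion_le.trans ?_)
    calc _ ≤ ∑ t ∈ HP, 3 := sum_le_sum fun t _ => card_image_le.trans (co_xz hf t.1 t.2.2)
      _ = 3 * HP.card := by rw [sum_const, smul_eq_mul, mul_comm]
  have hd2 : D2.card ≤ 3 * HP.card := by
    have e1 : D2 ⊆ HP.biUnion fun t =>
        (H.filter fun t' => t'.2.1 = t.2.1 ∧ t'.2.2 = t.2.2).image fun t' => (t, t') := by
      rintro ⟨t, t'⟩ hp
      rw [hD2, mem_filter, hQ, mem_filter, mem_product] at hp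
      exact mem_biUnion.2 ⟨t, hp.1.1.1, mem_image.2 ⟨t', mem_filter.2
        ⟨hHPH hp.1.1.2, hp.2.symm, hp.1.2.symm⟩, rfl⟩⟩
    refine (card_le_card e1).trans (card_biUnion_le.trans ?_)
    calc _ ≤ ∑ t ∈ HP, 3 := sum_le_sum fun t _ => card_image_le.trans (co_yz hf t.2.1 t.2.2)
      _ = 3 * HP.card := by rw [sum_const, smul_eq_mul, mul_comm]
  have h2 := card_le_card hcov
  have h3 := card_union_le (B1 ∪ B2) (D1 ∪ D2)
  have h4 := card_union_le B1 B2
  have h5 := card_union_le D1 D2
  refine h1.trans (Nat.mul_le_mul_left _ ?_)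
  have h6 : 18 * P.card ^ 2 * D = 2 * (9 * (P.card ^ 2 * D)) := by ring
  omega

/-- The main inequality. -/
theorem core {n M : ℝ} {D : ℕ} (hX : (Fintype.card X : ℝ) ≤ n) (hY : (Fintype.card Y : ℝ) ≤ n)
    (hZ : (Fintype.card Z : ℝ) ≤ n) (hn : 0 ≤ n) (cl : X → X)
    (hM : ((univ.image cl).card : ℝ) ≤ M)
    (hD : ∀ x x', cl x = cl x' → (nb H x \ nb H x').card ≤ D) :
    (H.card : ℝ) ^ 2 ≤ 18 * n ^ 2 * (n * D + M * n) := by
  classical
  set P := (univ : Finset X).image cl with hP
  let XC : X → Finset X := fun p => univ.filter fun x => cl x = p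
  let HC : X → ℕ := fun p => (H.filter fun t => t.1 ∈ XC p).card
  have hsum : ∑ p ∈ P, (HC p : ℝ) = H.card := by
    have : H.card = ∑ p ∈ P, HC p := by
      rw [card_eq_sum_card_fiberwise (f := fun t => cl t.1) (t := P)
        (fun t _ => mem_image_of_mem _ (mem_univ _))]
      refine sum_congr rfl fun p _ => ?_
      simp only [HC, XC, mem_filter, mem_univ, true_and]
    rw [this]
    push_cast
    rfl
  have hsumX : ∑ p ∈ P, ((XC p).card : ℝ) = Fintype.card X := by
    have : Fintype.card X = ∑ p ∈ P, (XC p).card := by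
      rw [← card_univ, card_eq_sum_card_fiberwise (f := cl) (t := P)
        (fun x _ => mem_image_of_mem _ (mem_univ _))]
    rw [this]
    push_cast
    rfl
  have hpos : ∀ p ∈ P, 0 < ((XC p).card : ℝ) := by
    intro p hp
    obtain ⟨x, _, rfl⟩ := mem_image.1 hp
    have : 0 < (XC (cl x)).card := card_pos.2 ⟨x, by simp [XC]⟩
    exact_mod_cast this
  have hHC : ∀ p, (HC p : ℝ) ≤ 3 * (XC p).card * n := by
    intro p
    have e1 : HC p ≤ 3 * ((XC p).card * Fintype.card Y) := by
      have e2 : (H.filter fun t => t.1 ∈ XC p) ⊆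
          ((XC p) ×ˢ (univ : Finset Y)).biUnion fun q =>
            H.filter fun t => t.1 = q.1 ∧ t.2.1 = q.2 := by
        intro t ht
        rw [mem_filter] at ht
        exact mem_biUnion.2 ⟨(t.1, t.2.1), mem_product.2 ⟨ht.2, mem_univ _⟩,
          mem_filter.2 ⟨ht.1, rfl, rfl⟩⟩
      refine (card_le_card e2).trans (card_biUnion_le.trans ?_)
      calc _ ≤ ∑ q ∈ (XC p) ×ˢ (univ : Finset Y), 3 := sum_le_sum fun q _ => co_xy hf q.1 q.2
        _ = 3 * ((XC p).card * Fintype.card Y) := by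
            rw [sum_const, smul_eq_mul, card_product, card_univ]; ring
    have e3 : (HC p : ℝ) ≤ 3 * ((XC p).card * Fintype.card Y) := by exact_mod_cast e1
    refine e3.trans ?_
    rw [mul_assoc]
    gcongr
  have hclass : ∀ p ∈ P, (HC p : ℝ) ^ 2 / (XC p).card ≤
      n * (18 * D * (XC p).card + 18 * n) := by
    intro p hp
    rw [div_le_iff₀ (hpos p hp)]
    have e1 := class_le hf (XC p) D fun x hx x' hx' => hD x x' (by
      simp only [XC, mem_filter, mem_univ, true_and] at hx hx'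
      rw [hx, hx'])
    have e2 : (HC p : ℝ) ^ 2 ≤ Fintype.card Z *
        (18 * (XC p).card ^ 2 * D + 6 * (HC p : ℝ)) := by exact_mod_cast e1
    refine e2.trans ?_
    have e3 := hHC p
    calc (Fintype.card Z : ℝ) * (18 * (XC p).card ^ 2 * D + 6 * (HC p : ℝ))
        ≤ n * (18 * (XC p).card ^ 2 * D + 6 * (3 * (XC p).card * n)) := by gcongr
      _ = _ := by ring
  have hCS : (∑ p ∈ P, (HC p : ℝ)) ^ 2 / ∑ p ∈ P, ((XC p).card : ℝ) ≤
      ∑ p ∈ P, (HC p : ℝ) ^ 2 / ((XC p).card : ℝ) := sq_sum_div_le_sum_sq_div P _ hpos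
  have hsum2 : ∑ p ∈ P, (HC p : ℝ) ^ 2 / ((XC p).card : ℝ) ≤ n * (18 * D * n + M * (18 * n)) := by
    refine (sum_le_sum hclass).trans ?_
    rw [← mul_sum, sum_add_distrib, ← mul_sum, hsumX, sum_const, nsmul_eq_mul]
    gcongr
  rw [hsum, hsumX] at hCS
  rcases Nat.eq_zero_or_pos (Fintype.card X) with h0 | h0
  · have : H = ∅ := by
      rw [eq_empty_iff_forall_notMem]
      intro t _
      exact (Fintype.card_eq_zero_iff.1 h0).false t.1
    rw [this]
    have hM0 : 0 ≤ M := le_trans (Nat.cast_nonneg _) hM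
    have h1 : (0 : ℝ) ≤ 18 * n ^ 2 * (n * D + M * n) := by positivity
    simpa using h1
  · have hXp : (0 : ℝ) < Fintype.card X := by exact_mod_cast h0
    have h1 := hCS.trans hsum2
    rw [div_le_iff₀ hXp] at h1
    refine h1.trans ?_
    have hM0 : 0 ≤ M := le_trans (Nat.cast_nonneg _) hM
    calc n * (18 * D * n + M * (18 * n)) * (Fintype.card X : ℝ)
        ≤ n * (18 * D * n + M * (18 * n)) * n := by gcongr
      _ = _ := by ring

omit hf in
/-- maximal separated set of rows -/
theorem exists_net (F : X → Y → Bool) (d E a : ℕ) (hE : 2 ≤ E) [Nonempty Y]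
    (h : Pool.Agent.H238R2.LR.RowVC F univ univ d) (ha : (2 * a * E + 1) ^ d < 2 ^ a) :
    ∃ cl : X → X, (univ.image cl).card < 2 ^ a ∧
      ∀ x, E * ((univ : Finset Y).filter (fun y => F x y ≠ F (cl x) y)).card ≤
        Fintype.card Y := by
  let sep : Finset X → Prop := fun P => ∀ x ∈ P, ∀ x' ∈ P, x ≠ x' →
    (univ : Finset Y).card < E * ((univ : Finset Y).filter (fun y => F x y ≠ F x' y)).card
  classical
  obtain ⟨P, hP, hmax⟩ := exists_max_image ((univ : Finset X).powerset.filter sep) card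
    ⟨∅, mem_filter.mpr ⟨mem_powerset.mpr (empty_subset _), by intro x hx; simp at hx⟩⟩
  rw [mem_filter, mem_powerset] at hP
  obtain ⟨hPA, hPs⟩ := hP
  have hPc := Pool.Agent.H238R2.LR.pack F univ P univ d E a univ_nonempty hE hPA hPs h ha
  have hcl : ∀ x : X, ∃ p ∈ P,
      E * ((univ : Finset Y).filter (fun y => F x y ≠ F p y)).card ≤ (univ : Finset Y).card := by
    intro x
    by_contra hcon
    push Not at hcon
    have hxP : x ∉ P := by
      intro hxP
      have := hcon x hxP
      simp at this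
    have hins : insert x P ∈ (univ : Finset X).powerset.filter sep := by
      rw [mem_filter, mem_powerset]
      refine ⟨subset_univ _, ?_⟩
      intro u hu v hv huv
      rw [mem_insert] at hu hv
      rcases hu with rfl | hu
      · rcases hv with rfl | hv
        · exact absurd rfl huv
        · exact hcon v hv
      · rcases hv with rfl | hv
        · have := hcon u hu
          have e : ((univ : Finset Y).filter (fun y => F u y ≠ F v y)) =
              ((univ : Finset Y).filter (fun y => F v y ≠ F u y)) := by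
            ext y; simp [ne_comm]
          rw [e]
          exact this
        · exact hPs u hu v hv huv
    have := hmax _ hins
    rw [card_insert_of_notMem hxP] at this
    omega
  choose cl hcl1 hcl2 using hcl
  refine ⟨cl, lt_of_le_of_lt (card_le_card ?_) hPc, hcl2⟩
  intro p hp
  obtain ⟨x, _, rfl⟩ := mem_image.1 hp
  exact hcl1 x

omit hf in
theorem rowVC (H : Finset (X × Y × Z)) (d : ℕ) (h : ((univ : Finset X).image (nb H)).vcDim ≤ d) :
    Pool.Agent.H238R2.LR.RowVC (fun x y => decide (y ∈ nb H x)) univ univ d := by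
  intro T _ hT
  refine le_trans ?_ h
  apply Finset.Shatters.card_le_vcDim
  intro T' hT'
  obtain ⟨x, _, hx⟩ := hT T' hT'
  refine ⟨nb H x, mem_image_of_mem _ (mem_univ _), ?_⟩
  ext y
  simp only [mem_inter]
  constructor
  · rintro ⟨h1, h2⟩
    exact (hx y h1).1 (by simpa using h2)
  · intro h1
    exact ⟨hT' h1, by simpa using (hx y (hT' h1)).2 h1⟩

omit hf in
/-- **The (7,4)-problem with one shadow of bounded VC dimension.** -/
theorem main (d : ℕ) : ∃ C : ℝ, 0 < C ∧ ∀ (X Y Z : Type) [Fintype X] [Fintype Y] [Fintype Z]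
    [DecidableEq X] [DecidableEq Y] [DecidableEq Z] (H : Finset (X × Y × Z)) (n : ℕ),
    Fintype.card X ≤ n → Fintype.card Y ≤ n → Fintype.card Z ≤ n →
    ((univ : Finset X).image (nb H)).vcDim ≤ d → Free H →
    (H.card : ℝ) ≤ C * (n : ℝ) ^ (2 - 1 / (4 * d + 2 : ℝ)) := by
  obtain ⟨K, hK, hnum⟩ := N272.Cor.numbers d
  refine ⟨36 + 18 * K * 4 ^ d, by positivity, fun X Y Z _ _ _ _ _ _ H n hX hY hZ hvc hfree => ?_⟩
  rcases H.eq_empty_or_nonempty with rfl | hne
  · simp only [card_empty, Nat.cast_zero]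
    positivity
  obtain ⟨⟨x0, y0, z0⟩, _⟩ := hne
  have : Nonempty Y := ⟨y0⟩
  have hn1 : 1 ≤ n := le_trans (Fintype.card_pos (α := Y)) hY
  set N : ℝ := (n : ℝ) with hN
  have hN1 : 1 ≤ N := by rw [hN]; exact_mod_cast hn1
  have hN0 : 0 < N := by linarith
  set q : ℝ := N ^ (1 / (4 * d + 2 : ℝ)) with hq
  have hd0 : (0 : ℝ) < 4 * d + 2 := by positivity
  have hq1 : 1 ≤ q := Real.one_le_rpow hN1 (by positivity)
  have hq0 : 0 < q := by linarith
  have hqN : q ^ (4 * d + 2) = N := by
    rw [hq, ← Real.rpow_natCast, ← Real.rpow_mul hN0.le]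
    push_cast
    rw [one_div_mul_cancel hd0.ne', Real.rpow_one]
  have hq2 : N ^ (2 - 1 / (4 * d + 2 : ℝ)) * q = N ^ 2 := by
    rw [hq, ← Real.rpow_add hN0, sub_add_cancel]
    norm_cast
  have hq21 : 1 ≤ q ^ 2 := one_le_pow₀ hq1
  set E : ℕ := ⌊q ^ 2⌋₊ + 1 with hE
  have hE1 : q ^ 2 < (E : ℝ) := by rw [hE]; push_cast; exact Nat.lt_floor_add_one _
  have hE2 : 2 ≤ E := by
    have : 1 ≤ ⌊q ^ 2⌋₊ := Nat.one_le_floor_iff _ |>.2 hq21
    omega
  have hE3 : (E : ℝ) ≤ 2 * q ^ 2 := by
    rw [hE]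
    push_cast
    have := Nat.floor_le (pow_nonneg hq0.le 2)
    linarith
  obtain ⟨a, ha1, ha2⟩ := hnum E hE2
  obtain ⟨cl, hcl1, hcl2⟩ := exists_net (fun x y => decide (y ∈ nb H x)) d E a hE2
    (rowVC H d hvc) ha1
  have hM : ((univ.image cl).card : ℝ) ≤ K * 4 ^ d * q ^ (4 * d) := by
    have h1 : (univ.image cl).card ≤ K * E ^ (2 * d) := hcl1.le.trans ha2
    have h2 : ((univ.image cl).card : ℝ) ≤ K * (E : ℝ) ^ (2 * d) := by exact_mod_cast h1
    refine h2.trans ?_
    calc (K : ℝ) * (E : ℝ) ^ (2 * d) ≤ K * (2 * q ^ 2) ^ (2 * d) := by gcongr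
      _ = K * 4 ^ d * q ^ (4 * d) := by
          rw [mul_pow, ← pow_mul, pow_mul (2 : ℝ) 2 d]
          norm_num
          rw [show 2 * (2 * d) = 4 * d by ring]
          ring
  -- distance in one class
  set D : ℕ := ⌊2 * N / q ^ 2⌋₊ with hDdef
  have hD : ∀ x x', cl x = cl x' → (nb H x \ nb H x').card ≤ D := by
    intro x x' hxx
    rw [hDdef, Nat.le_floor_iff (by positivity)]
    have h1 := hcl2 x
    have h2 := hcl2 x'
    have h3 : (nb H x \ nb H x').card ≤
        ((univ : Finset Y).filter fun y => decide (y ∈ nb H x) ≠ decide (y ∈ nb H (cl x))).card +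
        ((univ : Finset Y).filter
          fun y => decide (y ∈ nb H x') ≠ decide (y ∈ nb H (cl x'))).card := by
      rw [← hxx]
      refine (card_le_card ?_).trans (card_union_le _ _)
      intro y hy
      rw [mem_sdiff] at hy
      simp only [mem_union, mem_filter, mem_univ, true_and, ne_eq, decide_eq_decide]
      by_cases h : y ∈ nb H (cl x)
      · right
        intro h'
        exact hy.2 (h'.2 h)
      · left
        intro h'
        exact h (h'.1 hy.1)
    have h4 : E * (nb H x \ nb H x').card ≤ 2 * Fintype.card Y := by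
      calc E * (nb H x \ nb H x').card ≤ E * _ := Nat.mul_le_mul_left _ h3
        _ = _ + _ := mul_add _ _ _
        _ ≤ Fintype.card Y + Fintype.card Y := add_le_add h1 h2
        _ = _ := by ring
    have h5 : (E : ℝ) * (nb H x \ nb H x').card ≤ 2 * N := by
      have h6 : (E : ℝ) * (nb H x \ nb H x').card ≤ 2 * (Fintype.card Y : ℝ) := by
        exact_mod_cast h4
      have h7 : (Fintype.card Y : ℝ) ≤ N := by rw [hN]; exact_mod_cast hY
      linarith
    rw [le_div_iff₀ (by positivity)]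
    have h8 : ((nb H x \ nb H x').card : ℝ) * q ^ 2 ≤ (nb H x \ nb H x').card * E := by
      gcongr
    linarith
  have hcore := core hfree (n := N) (by rw [hN]; exact_mod_cast hX) (by rw [hN]; exact_mod_cast hY)
    (by rw [hN]; exact_mod_cast hZ) hN0.le cl hM hD
  have hD2 : (D : ℝ) ≤ 2 * N / q ^ 2 := Nat.floor_le (by positivity)
  have hfin : (H.card : ℝ) ^ 2 ≤ (36 + 18 * K * 4 ^ d) * (N ^ 2 / q) ^ 2 := by
    refine hcore.trans ?_
    have e1 : q ^ (4 * d) * q ^ 2 = N := by rw [← pow_add, hqN]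
    have e2 : q ^ (4 * d) = N / q ^ 2 := by
      rw [eq_div_iff (by positivity)]
      exact e1
    calc 18 * N ^ 2 * (N * D + K * 4 ^ d * q ^ (4 * d) * N)
        ≤ 18 * N ^ 2 * (N * (2 * N / q ^ 2) + K * 4 ^ d * q ^ (4 * d) * N) := by gcongr
      _ = (36 + 18 * K * 4 ^ d) * (N ^ 2 / q) ^ 2 := by
          rw [e2]
          field_simp
          ring
  have hC1 : (1 : ℝ) ≤ 36 + 18 * K * 4 ^ d := by
    have : (0 : ℝ) ≤ 18 * K * 4 ^ d := by positivity
    linarith
  have hfin2 : (H.card : ℝ) ≤ (36 + 18 * K * 4 ^ d) * (N ^ 2 / q) := by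
    rw [← pow_le_pow_iff_left₀ (by positivity) (by positivity) two_ne_zero, mul_pow]
    refine hfin.trans ?_
    have h0 : (0 : ℝ) ≤ (N ^ 2 / q) ^ 2 := by positivity
    have h9 : (36 + 18 * K * 4 ^ d : ℝ) ≤ (36 + 18 * K * 4 ^ d) ^ 2 := by nlinarith
    exact mul_le_mul_of_nonneg_right h9 h0
  refine hfin2.trans (le_of_eq ?_)
  rw [← hq2]
  field_simp

end Pool.Agent.N272.Bes7
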