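import Mathlib

set_option autoImplicit false
set_option linter.unusedSectionVars false

/-!
# Twins in hypergraphs without dense small configurations

If every `e` edges of an `r`-graph span more than `(r - 2) e + 3` vertices, then
`|N(x)| ≤ (r - 1) e (|N(x) Δ N(x')| + 1)` for all vertices `x ≠ x'`.
-/

open Finset

namespace Pool.Agent.N272.Bes

variable {V : Type} [Fintype V] [DecidableEq V]

/-- the neighbourhood of a vertex -/
def nbr (H : Finset (Finset V)) (x : V) : Finset V :=
  univ.filter fun y => y ≠ x ∧ ∃ f ∈ H, x ∈ f ∧ y ∈ f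

theorem mem_nbr {H : Finset (Finset V)} {x y : V} :
    y ∈ nbr H x ↔ y ≠ x ∧ ∃ f ∈ H, x ∈ f ∧ y ∈ f := by
  simp [nbr]

section Twin

variable (H : Finset (Finset V)) (x x' : V)

/-- edges through `x` or `x'` -/
def BB : Finset (Finset V) := H.filter fun f => x ∈ f ∨ x' ∈ f

/-- the other points of an edge -/
def U (f : Finset V) : Finset V := f \ {x, x'}

/-- the points of a set of edges -/
def UU (F : Finset (Finset V)) : Finset V := F.biUnion (U x x')

/-- two points on one edge -/
def Rel (u v : V) : Prop := ∃ f ∈ BB H x x', u ∈ U x x' f ∧ v ∈ U x x' f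

/-- closed sets of points -/
def Cl (Z : Finset V) : Prop := ∀ f ∈ BB H x x', ∀ u ∈ U x x' f, u ∈ Z → U x x' f ⊆ Z

open Classical in
/-- connected components -/
noncomputable def comp (u : V) : Finset V :=
  univ.filter fun v => Relation.ReflTransGen (Rel H x x') u v

/-- the edges of a set of points -/
def KK (Z : Finset V) : Finset (Finset V) :=
  (BB H x x').filter fun f => (U x x' f ∩ Z).Nonempty

variable {H x x'}

theorem mem_comp {u v : V} :
    v ∈ comp H x x' u ↔ Relation.ReflTransGen (Rel H x x') u v := by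
  classical
  simp [comp]

theorem comp_closed (u : V) : Cl H x x' (comp H x x' u) := by
  intro f hf v hv hvc w hw
  rw [mem_comp] at hvc ⊢
  exact hvc.tail ⟨f, hf, hv, hw⟩

theorem self_mem_comp (u : V) : u ∈ comp H x x' u := mem_comp.2 Relation.ReflTransGen.refl

theorem comp_symm {u v : V} (h : v ∈ comp H x x' u) : u ∈ comp H x x' v := by
  rw [mem_comp] at h ⊢
  induction h with
  | refl => exact Relation.ReflTransGen.refl
  | tail _ hbc ih =>
    obtain ⟨f, hf, ha, hb⟩ := hbc
    exact Relation.ReflTransGen.head ⟨f, hf, hb, ha⟩ ih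

theorem comp_subset {Z : Finset V} (hZ : Cl H x x' Z) {u : V} (hu : u ∈ Z) :
    comp H x x' u ⊆ Z := by
  intro v hv
  rw [mem_comp] at hv
  induction hv with
  | refl => exact hu
  | tail _ h ih =>
    obtain ⟨f, hf, ha, hb⟩ := h
    exact hZ f hf _ ha ih hb

theorem comp_trans {u v w : V} (h : v ∈ comp H x x' u) (h' : w ∈ comp H x x' v) :
    w ∈ comp H x x' u := by
  rw [mem_comp] at *
  exact h.trans h'

theorem mem_KK {Z : Finset V} {f : Finset V} :
    f ∈ KK H x x' Z ↔ f ∈ BB H x x' ∧ ∃ u ∈ U x x' f, u ∈ Z := by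
  unfold KK
  rw [mem_filter]
  constructor
  · rintro ⟨h1, u, hu⟩
    rw [mem_inter] at hu
    exact ⟨h1, u, hu⟩
  · rintro ⟨h1, u, hu, hz⟩
    exact ⟨h1, u, mem_inter.2 ⟨hu, hz⟩⟩

theorem UU_KK {Z : Finset V} (hZ : Cl H x x' Z) : UU x x' (KK H x x' Z) ⊆ Z := by
  intro v hv
  unfold UU at hv
  rw [mem_biUnion] at hv
  obtain ⟨f, hf, hvf⟩ := hv
  rw [mem_KK] at hf
  obtain ⟨h1, u, hu, huZ⟩ := hf
  exact hZ f h1 u hu huZ hvf

theorem UU_closed : Cl H x x' (UU x x' (BB H x x')) := by
  intro f hf u _ _ v hv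
  exact mem_biUnion.2 ⟨f, hf, hv⟩

theorem mem_UU {F : Finset (Finset V)} {u : V} : u ∈ UU x x' F ↔ ∃ f ∈ F, u ∈ U x x' f := by
  unfold UU
  rw [mem_biUnion]

theorem span_le (F : Finset (Finset V)) :
    (F.biUnion id).card ≤ (UU x x' F).card + 2 := by
  have h1 : F.biUnion id ⊆ UU x x' F ∪ {x, x'} := by
    intro v hv
    rw [mem_biUnion] at hv
    obtain ⟨f, hf, hvf⟩ := hv
    rw [mem_union]
    by_cases h : v ∈ ({x, x'} : Finset V)
    · exact Or.inr h
    · exact Or.inl (mem_UU.2 ⟨f, hf, mem_sdiff.2 ⟨hvf, h⟩⟩)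
  refine (card_le_card h1).trans ((card_union_le _ _).trans ?_)
  have := card_le_two (a := x) (b := x')
  omega

variable {r : ℕ} (hr : 3 ≤ r) (hH : ∀ f ∈ H, f.card = r)
include hr hH

theorem card_U_le {f : Finset V} (hf : f ∈ BB H x x') : (U x x' f).card ≤ r - 1 := by
  unfold BB at hf
  rw [mem_filter] at hf
  have h1 := hH f hf.1
  have h2 : (U x x' f).card < f.card := by
    apply card_lt_card
    have hsub : U x x' f ⊆ f := sdiff_subset
    rw [ssubset_iff_of_subset hsub]
    rcases hf.2 with h | h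
    · exact ⟨x, h, by simp [U]⟩
    · exact ⟨x', h, by simp [U]⟩
  omega

theorem U_nonempty {f : Finset V} (hf : f ∈ BB H x x') : (U x x' f).Nonempty := by
  unfold BB at hf
  rw [mem_filter] at hf
  have h1 := hH f hf.1
  rw [← card_pos]
  have h2 := le_card_sdiff ({x, x'} : Finset V) f
  have h3 := card_le_two (a := x) (b := x')
  unfold U
  omega

/-- Growing a connected set of edges. -/
theorem grow {u : V} (j : ℕ) (hj : 1 ≤ j) (hK : j ≤ (KK H x x' (comp H x x' u)).card) :
    ∃ F ⊆ KK H x x' (comp H x x' u), F.card = j ∧ (UU x x' F).card ≤ (r - 2) * j + 1 := by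
  induction j with
  | zero => omega
  | succ j ih =>
    rcases Nat.eq_zero_or_pos j with rfl | hj0
    · obtain ⟨f, hf⟩ : (KK H x x' (comp H x x' u)).Nonempty := by
        rw [← card_pos]; omega
      refine ⟨{f}, by simpa using hf, by simp, ?_⟩
      have h1 := card_U_le hr hH (mem_KK.1 hf).1
      have h2 : UU x x' {f} = U x x' f := by simp [UU]
      rw [h2]
      omega
    · obtain ⟨F, hFK, hFc, hFU⟩ := ih hj0 (by omega)
      -- an edge that meets the points of F
      obtain ⟨f, hfK, hfF, hfU⟩ : ∃ f ∈ KK H x x' (comp H x x' u), f ∉ F ∧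
          (U x x' f ∩ UU x x' F).Nonempty := by
        by_contra hcon
        push Not at hcon
        have hcl : Cl H x x' (UU x x' F) := by
          intro f hf v hv hvF
          have hvc : v ∈ comp H x x' u := UU_KK (comp_closed u) (by
            rw [mem_UU] at hvF ⊢
            obtain ⟨g, hg, hvg⟩ := hvF
            exact ⟨g, hFK hg, hvg⟩)
          have hfK : f ∈ KK H x x' (comp H x x' u) := mem_KK.2 ⟨hf, v, hv, hvc⟩
          by_cases hfF : f ∈ F
          · intro w hw
            exact mem_UU.2 ⟨f, hfF, hw⟩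
          · have := hcon f hfK hfF
            exact absurd (⟨v, mem_inter.2 ⟨hv, hvF⟩⟩ : (U x x' f ∩ UU x x' F).Nonempty)
              (by rw [this]; exact not_nonempty_empty)
        obtain ⟨g, hg⟩ : F.Nonempty := by rw [← card_pos]; omega
        have hgK := mem_KK.1 (hFK hg)
        obtain ⟨v, hv⟩ := U_nonempty hr hH hgK.1
        have hvF : v ∈ UU x x' F := mem_UU.2 ⟨g, hg, hv⟩
        have hvc : v ∈ comp H x x' u := UU_KK (comp_closed u) (mem_UU.2 ⟨g, hFK hg, hv⟩)
        have hsub : comp H x x' u ⊆ UU x x' F := by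
          intro w hw
          exact comp_subset hcl hvF (comp_trans (comp_symm hvc) hw)
        have hall : KK H x x' (comp H x x' u) ⊆ F := by
          intro f hf
          by_contra hfF
          obtain ⟨h1, w, hw, hwc⟩ := mem_KK.1 hf
          have := hcon f hf hfF
          exact absurd (⟨w, mem_inter.2 ⟨hw, hsub hwc⟩⟩ : (U x x' f ∩ UU x x' F).Nonempty)
              (by rw [this]; exact not_nonempty_empty)
        have := card_le_card hall
        omega
      refine ⟨insert f F, insert_subset hfK hFK, by rw [card_insert_of_notMem hfF, hFc], ?_⟩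
      have h1 : UU x x' (insert f F) = UU x x' F ∪ (U x x' f \ UU x x' F) := by
        unfold UU
        rw [biUnion_insert, union_sdiff_self_eq_union, union_comm]
      have h2 : (U x x' f \ UU x x' F).card + 1 ≤ (U x x' f).card := by
        have h3 : (U x x' f \ UU x x' F).card < (U x x' f).card := by
          apply card_lt_card
          rw [ssubset_iff_of_subset sdiff_subset]
          obtain ⟨w, hw⟩ := hfU
          rw [mem_inter] at hw
          exact ⟨w, hw.1, fun h => (mem_sdiff.1 h).2 hw.2⟩
        omega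
      have h3 := card_U_le hr hH (mem_KK.1 hfK).1
      have h4 := card_union_le (UU x x' F) (U x x' f \ UU x x' F)
      rw [h1]
      have h5 : (r - 2) * (j + 1) = (r - 2) * j + (r - 2) := by ring
      omega

/-- Full closed sets have few points. -/
theorem full (hne : x ≠ x') {Z : Finset V} (hZ : Z ⊆ UU x x' (BB H x x'))
    (hfull : ∀ v ∈ Z, v ∈ nbr H x ∧ v ∈ nbr H x') :
    Z.card ≤ (r - 2) * (KK H x x' Z).card := by
  have hU : ∀ v ∈ Z, v ≠ x ∧ v ≠ x' := by
    intro v hv
    obtain ⟨f, _, hvf⟩ := mem_UU.1 (hZ hv)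
    unfold U at hvf
    simp only [mem_sdiff, mem_insert, mem_singleton, not_or] at hvf
    exact hvf.2
  have key : ∀ w : V, (w = x ∨ w = x') → (∀ v ∈ Z, v ∈ nbr H w) →
      Z.card ≤ ∑ f ∈ KK H x x' Z, if w ∈ f then (U x x' f).card else 0 := by
    intro w hw hn
    have h1 : Z ⊆ ((KK H x x' Z).filter fun f => w ∈ f).biUnion (U x x') := by
      intro v hv
      obtain ⟨_, f, hf, hwf, hvf⟩ := mem_nbr.1 (hn v hv)
      have hB : f ∈ BB H x x' := by
        unfold BB
        rw [mem_filter]
        rcases hw with rfl | rfl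
        · exact ⟨hf, Or.inl hwf⟩
        · exact ⟨hf, Or.inr hwf⟩
      have hvU : v ∈ U x x' f := by
        unfold U
        simp only [mem_sdiff, mem_insert, mem_singleton, not_or]
        exact ⟨hvf, hU v hv⟩
      exact mem_biUnion.2 ⟨f, mem_filter.2 ⟨mem_KK.2 ⟨hB, v, hvU, hv⟩, hwf⟩, hvU⟩
    refine (card_le_card h1).trans (card_biUnion_le.trans ?_)
    rw [sum_filter]
  have h1 := key x (Or.inl rfl) fun v hv => (hfull v hv).1
  have h2 := key x' (Or.inr rfl) fun v hv => (hfull v hv).2
  have h3 : (∑ f ∈ KK H x x' Z, if x ∈ f then (U x x' f).card else 0) +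
      (∑ f ∈ KK H x x' Z, if x' ∈ f then (U x x' f).card else 0) ≤
      ∑ f ∈ KK H x x' Z, 2 * (r - 2) := by
    rw [← sum_add_distrib]
    refine sum_le_sum fun f hf => ?_
    have hfB := (mem_KK.1 hf).1
    have h4 := card_U_le hr hH hfB
    unfold BB at hfB
    rw [mem_filter] at hfB
    have h5 := hH f hfB.1
    by_cases hx : x ∈ f
    · by_cases hx' : x' ∈ f
      · have h6 : (U x x' f).card = r - 2 := by
          unfold U
          rw [card_sdiff_of_subset (by
            intro w hw
            simp only [mem_insert, mem_singleton] at hw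
            rcases hw with rfl | rfl
            · exact hx
            · exact hx'), h5, card_pair hne]
        rw [if_pos hx, if_pos hx', h6]
        omega
      · rw [if_pos hx, if_neg hx']
        omega
    · rw [if_neg hx]
      split_ifs
      · omega
      · omega
  rw [sum_const, smul_eq_mul] at h3
  have h7 : 2 * Z.card ≤ 2 * ((r - 2) * (KK H x x' Z).card) := by
    calc 2 * Z.card ≤ (KK H x x' Z).card * (2 * (r - 2)) := by omega
      _ = _ := by ring
  omega

/-- **Twins.** -/
theorem twin (hne : x ≠ x') {e : ℕ} (he : 1 ≤ e)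
    (hfree : ∀ F ⊆ H, F.card = e → (r - 2) * e + 3 < (F.biUnion id).card) :
    (nbr H x).card ≤ (r - 1) * e * ((symmDiff (nbr H x) (nbr H x')).card + 1) := by
  classical
  set B := BB H x x' with hB
  have hBH : B ⊆ H := filter_subset _ _
  have hKB : ∀ Z, KK H x x' Z ⊆ B := fun Z => filter_subset _ _
  set D := symmDiff (nbr H x) (nbr H x') with hD
  -- no dense sets of e edges
  have hno : ∀ F ⊆ B, F.card = e → ¬ (UU x x' F).card ≤ (r - 2) * e + 1 := by
    intro F hF hc h
    have h1 := hfree F (hF.trans hBH) hc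
    have h2 := span_le (x := x) (x' := x') F
    omega
  -- (b)
  have hb : ∀ u, (KK H x x' (comp H x x' u)).card < e := by
    intro u
    by_contra hcon
    push Not at hcon
    obtain ⟨F, h1, h2, h3⟩ := grow hr hH e he hcon
    exact hno F (h1.trans (hKB _)) h2 h3
  have hsubB : ∀ u ∈ UU x x' B, comp H x x' u ⊆ UU x x' B := fun u hu =>
    comp_subset UU_closed hu
  have hb2 : ∀ u ∈ UU x x' B, (comp H x x' u).card ≤ (r - 1) * e := by
    intro u hu
    have h1 : comp H x x' u ⊆ UU x x' (KK H x x' (comp H x x' u)) := by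
      intro v hv
      obtain ⟨f, hf, hvf⟩ := mem_UU.1 (hsubB u hu hv)
      exact mem_UU.2 ⟨f, mem_KK.2 ⟨hf, v, hvf, hv⟩, hvf⟩
    refine (card_le_card h1).trans ?_
    unfold UU
    refine card_biUnion_le.trans ?_
    calc ∑ f ∈ KK H x x' (comp H x x' u), (U x x' f).card
        ≤ ∑ f ∈ KK H x x' (comp H x x' u), (r - 1) :=
          sum_le_sum fun f hf => card_U_le hr hH (mem_KK.1 hf).1
      _ = (KK H x x' (comp H x x' u)).card * (r - 1) := by rw [sum_const, smul_eq_mul]
      _ ≤ e * (r - 1) := Nat.mul_le_mul_right _ (hb u).le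
      _ = (r - 1) * e := mul_comm _ _
  -- full points
  set G := (UU x x' B).filter fun u => Disjoint (comp H x x' u) D with hG
  have hGcl : Cl H x x' G := by
    intro f hf u hu huG v hv
    rw [hG, mem_filter] at huG ⊢
    refine ⟨UU_closed f hf u hu huG.1 hv, ?_⟩
    refine disjoint_of_subset_left ?_ huG.2
    intro w hw
    refine comp_trans ?_ hw
    exact mem_comp.2 (Relation.ReflTransGen.single ⟨f, hf, hu, hv⟩)
  have hGfull : ∀ v ∈ G, v ∈ nbr H x ∧ v ∈ nbr H x' := by
    intro v hv
    rw [hG, mem_filter] at hv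
    have h1 : v ∉ D := disjoint_left.1 hv.2 (self_mem_comp v)
    obtain ⟨f, hf, hvf⟩ := mem_UU.1 hv.1
    have hf' : f ∈ H ∧ (x ∈ f ∨ x' ∈ f) := by
      rw [hB] at hf
      unfold BB at hf
      exact mem_filter.1 hf
    unfold U at hvf
    simp only [mem_sdiff, mem_insert, mem_singleton, not_or] at hvf
    rw [hD, mem_symmDiff, not_or, not_and, not_and] at h1
    push Not at h1
    rcases hf'.2 with h | h
    · have h2 : v ∈ nbr H x := mem_nbr.2 ⟨hvf.2.1, f, hf'.1, h, hvf.1⟩
      exact ⟨h2, h1.1 h2⟩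
    · have h2 : v ∈ nbr H x' := mem_nbr.2 ⟨hvf.2.2, f, hf'.1, h, hvf.1⟩
      exact ⟨h1.2 h2, h2⟩
  have hGB : G ⊆ UU x x' B := filter_subset _ _
  -- (a)
  have ha : (KK H x x' G).card < e := by
    by_contra hcon
    push Not at hcon
    obtain ⟨Z, hZ, hmax⟩ := exists_max_image
      (G.powerset.filter fun Z => Cl H x x' Z ∧ (KK H x x' Z).card ≤ e)
      (fun Z => (KK H x x' Z).card)
      ⟨∅, mem_filter.2 ⟨mem_powerset.2 (empty_subset _), by
        intro f _ u _ hu
        exact absurd hu (notMem_empty _), by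
        have : KK H x x' (∅ : Finset V) = ∅ := by
          unfold KK
          rw [filter_eq_empty_iff]
          intro f _
          simp
        rw [this]
        simp⟩⟩
    rw [mem_filter, mem_powerset] at hZ
    obtain ⟨hZG, hZcl, hZe⟩ := hZ
    have hZU := UU_KK hZcl
    have hZfull := full hr hH hne (hZG.trans hGB) fun v hv => hGfull v (hZG hv)
    rcases Nat.lt_or_ge (KK H x x' Z).card e with hlt | hge
    · obtain ⟨f, hfG, hfZ⟩ : ∃ f ∈ KK H x x' G, f ∉ KK H x x' Z :=
        exists_mem_notMem_of_card_lt_card (lt_of_lt_of_le hlt hcon)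
      obtain ⟨hfB, u, hu, huG⟩ := mem_KK.1 hfG
      have huZ : u ∉ Z := fun h => hfZ (mem_KK.2 ⟨hfB, u, hu, h⟩)
      have huB : u ∈ UU x x' B := hGB huG
      -- the union is closed
      have hcl' : Cl H x x' (Z ∪ comp H x x' u) := by
        intro g hg v hv hvZ
        rcases mem_union.1 hvZ with h | h
        · exact (hZcl g hg v hv h).trans subset_union_left
        · exact (comp_closed u g hg v hv h).trans subset_union_right
      have hsub' : Z ∪ comp H x x' u ⊆ G := union_subset hZG (comp_subset hGcl huG)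
      have hKun : KK H x x' (Z ∪ comp H x x' u) ⊆ KK H x x' Z ∪ KK H x x' (comp H x x' u) := by
        intro g hg
        obtain ⟨h1, v, hv, hvZ⟩ := mem_KK.1 hg
        rw [mem_union]
        rcases mem_union.1 hvZ with h | h
        · exact Or.inl (mem_KK.2 ⟨h1, v, hv, h⟩)
        · exact Or.inr (mem_KK.2 ⟨h1, v, hv, h⟩)
      have hKss : insert f (KK H x x' Z) ⊆ KK H x x' (Z ∪ comp H x x' u) := by
        intro g hg
        rcases mem_insert.1 hg with rfl | hg
        · exact mem_KK.2 ⟨hfB, u, hu, mem_union_right _ (self_mem_comp u)⟩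
        · obtain ⟨h1, v, hv, hvZ⟩ := mem_KK.1 hg
          exact mem_KK.2 ⟨h1, v, hv, mem_union_left _ hvZ⟩
      have hc1 := card_le_card hKss
      rw [card_insert_of_notMem hfZ] at hc1
      have hc2 : e < (KK H x x' (Z ∪ comp H x x' u)).card := by
        by_contra h
        push Not at h
        have := hmax (Z ∪ comp H x x' u)
          (mem_filter.2 ⟨mem_powerset.2 hsub', hcl', h⟩)
        omega
      have hc3 := card_le_card hKun
      have hc4 := card_union_le (KK H x x' Z) (KK H x x' (comp H x x' u))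
      obtain ⟨F, hFK, hFc, hFU⟩ := grow (x := x) (x' := x') hr hH (u := u) (e - (KK H x x' Z).card) (by omega)
        (by omega)
      have hdisj : Disjoint (KK H x x' Z) F := by
        rw [disjoint_left]
        intro g hgZ hgF
        obtain ⟨h1, v, hv, hvZ⟩ := mem_KK.1 hgZ
        obtain ⟨h2, w, hw, hwc⟩ := mem_KK.1 (hFK hgF)
        have h3 : v ∈ comp H x x' u := comp_closed u g h1 w hw hwc hv
        exact huZ (comp_subset hZcl hvZ (comp_symm h3))
      refine hno (KK H x x' Z ∪ F) (union_subset (hKB _) (hFK.trans (hKB _))) ?_ ?_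
      · rw [card_union_of_disjoint hdisj, hFc]
        omega
      · have h1 : UU x x' (KK H x x' Z ∪ F) = UU x x' (KK H x x' Z) ∪ UU x x' F := by
          unfold UU
          rw [union_biUnion]
        rw [h1]
        have h2 := card_union_le (UU x x' (KK H x x' Z)) (UU x x' F)
        have h3 := card_le_card hZU
        have h4 : (r - 2) * (KK H x x' Z).card + (r - 2) * (e - (KK H x x' Z).card) =
            (r - 2) * e := by
          rw [← mul_add]
          congr 1
          omega
        omega
    · have heq : (KK H x x' Z).card = e := le_antisymm hZe hge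
      refine hno (KK H x x' Z) (hKB _) heq ?_
      have h3 := card_le_card hZU
      rw [heq] at hZfull
      omega
  -- (c)
  have hc : G.card ≤ (r - 2) * e :=
    (full hr hH hne hGB hGfull).trans (Nat.mul_le_mul_left _ ha.le)
  -- (d)
  have hd : (UU x x' B \ G).card ≤ D.card * ((r - 1) * e) := by
    have h1 : UU x x' B \ G ⊆ (D ∩ UU x x' B).biUnion (comp H x x') := by
      intro u hu
      rw [mem_sdiff, hG, mem_filter, not_and] at hu
      have h2 := hu.2 hu.1
      rw [not_disjoint_iff] at h2
      obtain ⟨w, hw, hwD⟩ := h2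
      exact mem_biUnion.2 ⟨w, mem_inter.2 ⟨hwD, hsubB u hu.1 hw⟩, comp_symm hw⟩
    refine (card_le_card h1).trans (card_biUnion_le.trans ?_)
    calc ∑ w ∈ D ∩ UU x x' B, (comp H x x' w).card ≤ ∑ w ∈ D ∩ UU x x' B, (r - 1) * e :=
          sum_le_sum fun w hw => hb2 w (mem_inter.1 hw).2
      _ = (D ∩ UU x x' B).card * ((r - 1) * e) := by rw [sum_const, smul_eq_mul]
      _ ≤ _ := Nat.mul_le_mul_right _ (card_le_card inter_subset_left)
  -- (e)
  have hee : nbr H x ⊆ insert x' (G ∪ (UU x x' B \ G)) := by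
    intro y hy
    obtain ⟨h1, f, hf, hxf, hyf⟩ := mem_nbr.1 hy
    rw [mem_insert]
    by_cases h2 : y = x'
    · exact Or.inl h2
    · right
      rw [union_sdiff_of_subset hGB]
      refine mem_UU.2 ⟨f, ?_, ?_⟩
      · rw [hB]
        unfold BB
        exact mem_filter.2 ⟨hf, Or.inl hxf⟩
      · unfold U
        simp only [mem_sdiff, mem_insert, mem_singleton, not_or]
        exact ⟨hyf, h1, h2⟩
  have h1 := card_le_card hee
  have h2 := card_insert_le x' (G ∪ (UU x x' B \ G))
  have h3 := card_union_le G (UU x x' B \ G)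
  have h4 : (r - 1) * e = (r - 2) * e + e := by
    have : r - 1 = (r - 2) + 1 := by omega
    rw [this]
    ring
  have h5 : (r - 1) * e * (D.card + 1) = D.card * ((r - 1) * e) + (r - 1) * e := by ring
  rw [h5]
  omega

end Twin

end Pool.Agent.N272.Bes
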